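import Pool.Agent.Lib.MP_27f33f_gt.StmLP

/-!
Compact complete flat affine manifolds (orbifolds) with a parallel foliation all but one of whose
leaf directions are compact: a polynomial map of the leaf spaces which coarsely intertwines the
transverse holonomies of finite covers forces the manifolds to be diffeomorphic.
-/

set_option autoImplicit false

namespace Pool.Agent.Results.MP_27f33f_gt.CoarseIntertwiner

open AffCryst

theorem result :
    -- two crystallographic actions on `ℝᵐ` of a group `G`
    ∀ (m n : ℕ) (G : Type) [Group G] (ρ ρ' : G →* Aff m), IsCryst ρ → IsCryst ρ' →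
      -- affine maps onto `ℝⁿ` with fibres permuted by `G`, induced actions `α`, `β`
      ∀ (π π' : V m → V n) (α β : G →* Aff n), Fibred ρ π α → Fibred ρ' π' β →
      -- a normal subgroup `T` translating along the fibres, in all but at most one direction
      ∀ T : Subgroup G, T.Normal → TransAlong ρ T π → TransAlong ρ' T π' →
      m ≤ n + 1 + transDim ρ T →
      -- a polynomial map which is a coarse intertwiner for a subgroup of finite index
      ∀ (G₀ : Subgroup G) (p : V n → V n), G₀.FiniteIndex → IsPoly p → CoarseInt α β G₀ p →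
      -- `p` is affine, or the Jacobians agree up to sign, or there is a reverse map
      (IsAffine p ∨ (∀ g ∈ G₀, absJac (act α g) = absJac (act β g)) ∨
        ∃ (G₁ : Subgroup G) (s : V n → V n), G₁.FiniteIndex ∧ IsPoly s ∧ CoarseInt β α G₁ s) →
      -- conclusion
      ∃ (q : V n → V n) (f : V m → V m), IsPoly q ∧ IsDiffeo q ∧ IsDiffeo f ∧
        (∀ g z, q (act α g z) = act β g (q z)) ∧ (∀ x, π' (f x) = q (π x)) ∧
        ∀ g x, f (act ρ g x) = act ρ' g (f x) := by
  intro m n G _ ρ ρ' h1 h2 π π' α β h5 h6 T h9 h10 h11 h12 G₀ p h13 h14 h15 h16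
  exact stm_LP h1 h2 h5 h6 h9 h10 h11 h12 h13 h14 h15 h16

end Pool.Agent.Results.MP_27f33f_gt.CoarseIntertwiner
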