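import Pool.Agent.Lib.MP_27f33f_gt.StmSm

/-!
Compact complete flat affine manifolds (orbifolds) with a smooth line fibration of the universal
cover (after dividing by a lattice of translations): an equivariant immersion of the leaf spaces
lifts to a diffeomorphism.
-/

set_option autoImplicit false

namespace Pool.Agent.Results.MP_27f33f_gt.LeafSpaceImmersion

open AffCryst

theorem result :
    -- two crystallographic actions on `ℝᵐ` of a group `G`
    ∀ (m n : ℕ) (G : Type) [Group G] (ρ ρ' : G →* Aff m), IsCryst ρ → IsCryst ρ' →
      -- trivial smooth line fibrations modulo the translations in `T` (`T` may be trivial),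
      -- with induced actions `α`, `β` on the leaf spaces
      ∀ T : Subgroup G, T.Normal →
      ∀ (pr pr' : V m → V n) (α β : G → V n → V n), LineFib ρ T pr α → LineFib ρ' T pr' β →
      -- an equivariant smooth immersion of the leaf spaces
      ∀ h : V n → V n, IsImmersion h → (∀ g z, h (α g z) = β g (h z)) →
        Function.Bijective h ∧ ∃ f : V m → V m, IsDiffeo f ∧ (∀ x, pr' (f x) = h (pr x)) ∧
          ∀ g x, f (act ρ g x) = act ρ' g (f x) := by
  intro m n G _ ρ ρ' h1 h2 T h3 pr pr' α β h4 h5 h h6 h7
  exact stm_sm h1 h2 h3 h4 h5 h6 h7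

end Pool.Agent.Results.MP_27f33f_gt.LeafSpaceImmersion
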