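import Pool.Agent.Lib.MP_27f33f_gt.ConeTop

/-!
# Crystallographic lifts of a transverse affine action along a line

`V` is a finite dimensional real vector space (so `V` is `ℝⁿ`). A group of affine maps of `V × ℝ`
which permutes the lines `{z} × ℝ` is given by its transverse affine action on `V`, its
multiplier along the lines and an affine cocycle.
-/

set_option autoImplicit false

namespace Pool.Agent.Results.MP_27f33f_gt.LineCone

open Pool.Agent.AffRig Filter Topology
open scoped ContDiff Manifold

noncomputable section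

variable {H V : Type*} [Group H] [NormedAddCommGroup V] [NormedSpace ℝ V]

/-- Transverse data: an affine action `α` of the group on `V` and a multiplier `a`. -/
structure Transverse (H V : Type*) [Group H] [NormedAddCommGroup V] [NormedSpace ℝ V] where
  /-- the affine action on the space of lines -/
  α : H →* (V ≃ᵃ[ℝ] V)
  /-- the multiplier along the lines -/
  a : H →* ℝˣ

/-- Families of affine functions on `V` indexed by the group; the topology is that of pointwise
convergence over the group. -/
abbrev Families (H V : Type*) [NormedAddCommGroup V] [NormedSpace ℝ V] :=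
  H → (V →ᴬ[ℝ] ℝ)

/-- Affine cocycles: `l (g h) z = a g * l h z + l g (α h z)`. -/
def IsCocycle (D : Transverse H V) (l : Families H V) : Prop :=
  ∀ g h z, l (g * h) z = (D.a g : ℝ) * l h z + l g (D.α h z)

/-- The affine maps `(z, t) ↦ (α g z, a g t + l g z)` of `V × ℝ` given by a cocycle `l`. -/
def lift (D : Transverse H V) (l : Families H V) (g : H) (x : V × ℝ) : V × ℝ :=
  (D.α g x.1, (D.a g : ℝ) * x.2 + l g x.1)

/-- The family `l` is a cocycle and its lift is crystallographic: the group acts properly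
discontinuously and cocompactly on `V × ℝ`. -/
def Crystallographic (D : Transverse H V) (l : Families H V) : Prop :=
  IsCocycle D l ∧
  (∀ K : Set (V × ℝ), IsCompact K → {g : H | (lift D l g '' K ∩ K).Nonempty}.Finite) ∧
  ∃ K : Set (V × ℝ), IsCompact K ∧ ∀ x, ∃ g : H, lift D l g x ∈ K

/-- `C` is a convex cone of affine cocycles, and it is open in the space of affine cocycles. -/
def IsOpenConvexCone (D : Transverse H V) (C : Set (Families H V)) : Prop :=
  (∃ O : Set (Families H V), IsOpen O ∧ C = O ∩ {l | IsCocycle D l}) ∧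
  ∀ l ∈ C, ∀ l' ∈ C, ∀ s t : ℝ, 0 ≤ s → 0 ≤ t → 0 < s + t → s • l + t • l' ∈ C

/-- The lifts given by `l` and `l'` are conjugate by a smooth diffeomorphism of `V × ℝ` which
covers the identity of `V`. -/
def ConjugateOverBase (D : Transverse H V) (l l' : Families H V) : Prop :=
  ∃ U : Diffeomorph 𝓘(ℝ, V × ℝ) 𝓘(ℝ, V × ℝ) (V × ℝ) (V × ℝ) ∞,
    (∀ x, (U x).1 = x.1) ∧ ∀ g x, U (lift D l g x) = lift D l' g (U x)

/-- The smooth transverse action. -/
def tact [FiniteDimensional ℝ V] (D : Transverse H V) : SAct H V where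
  f := fun g x => D.α g x
  one := fun x => by rw [map_one]; rfl
  mul := fun g h x => by rw [map_mul]; rfl
  sm := fun g => contDiff_affineMap ((D.α g : V ≃ᵃ[ℝ] V) : V →ᵃ[ℝ] V)

/-- The linear part along the lines. -/
def mult (D : Transverse H V) : LRep H ℝ where
  r := fun g => (D.a g : ℝ) • ContinuousLinearMap.id ℝ ℝ
  one := fun v => by
    change ((D.a 1 : ℝˣ) : ℝ) * v = v
    rw [map_one, Units.val_one, one_mul]
  mul := fun g h v => by
    change ((D.a (g * h) : ℝˣ) : ℝ) * v = ((D.a g : ℝˣ) : ℝ) * (((D.a h : ℝˣ) : ℝ) * v)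
    rw [map_mul, Units.val_mul, mul_assoc]

lemma isCocy [FiniteDimensional ℝ V] {D : Transverse H V} {l : Families H V}
    (hl : IsCocycle D l) : IsCocy (tact D) (mult D) (fun g z => l g z) :=
  ⟨fun g => (l g).contDiff, fun g h z => hl g h z⟩

lemma crys_iff [FiniteDimensional ℝ V] {D : Transverse H V} (l : Families H V) :
    Crystallographic D l ↔ Crys (tact D) (mult D) (fun g z => l g z) :=
  ⟨fun h => ⟨isCocy h.1, h.2⟩, fun h => ⟨fun g k z => h.1.2 g k z, h.2⟩⟩

lemma abs_apply_le (f : V →ᴬ[ℝ] ℝ) (z : V) :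
    |f z| ≤ ‖f‖ * (‖z‖ + 1) := by
  have h1 : f z = f.contLinear z + f 0 := by
    have := congrFun f.decomp z
    simpa using this
  rw [h1]
  calc |f.contLinear z + f 0| ≤ |f.contLinear z| + |f 0| := abs_add_le _ _
    _ ≤ ‖f.contLinear‖ * ‖z‖ + ‖f 0‖ := add_le_add (f.contLinear.le_opNorm z) le_rfl
    _ ≤ ‖f‖ * ‖z‖ + ‖f‖ := add_le_add
        (mul_le_mul_of_nonneg_right f.norm_contLinear_le (norm_nonneg _)) f.norm_image_zero_le
    _ = ‖f‖ * (‖z‖ + 1) := by ring

lemma IsCocycle.add {D : Transverse H V} {l l' : Families H V} (h : IsCocycle D l)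
    (h' : IsCocycle D l') : IsCocycle D (l + l') := by
  intro g k z
  change l (g * k) z + l' (g * k) z =
    (D.a g : ℝ) * (l k z + l' k z) + (l g (D.α k z) + l' g (D.α k z))
  rw [h, h']
  ring

lemma IsCocycle.smul {D : Transverse H V} {l : Families H V} (h : IsCocycle D l) (c : ℝ) :
    IsCocycle D (c • l) := by
  intro g k z
  change c * l (g * k) z = (D.a g : ℝ) * (c * l k z) + c * l g (D.α k z)
  rw [h]
  ring

lemma IsCocycle.sub {D : Transverse H V} {l l' : Families H V} (h : IsCocycle D l)
    (h' : IsCocycle D l') : IsCocycle D (l - l') := by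
  intro g k z
  change l (g * k) z - l' (g * k) z =
    (D.a g : ℝ) * (l k z - l' k z) + (l g (D.α k z) - l' g (D.α k z))
  rw [h, h']
  ring

lemma IsCocycle.neg {D : Transverse H V} {l : Families H V} (h : IsCocycle D l) :
    IsCocycle D (-l) := by
  intro g k z
  change -(l (g * k) z) = (D.a g : ℝ) * -(l k z) + -(l g (D.α k z))
  rw [h]
  ring

/-- **Theorem.** Let a transverse affine action on `V` with a multiplier have at least one
crystallographic lift to `V × ℝ`. Then the set of all crystallographic lifts is `C ∪ -C`, where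
`C` is an open convex cone in the space of affine cocycles and `C`, `-C` are disjoint; and any two
crystallographic lifts are conjugate by a diffeomorphism of `V × ℝ` over the identity of `V`. -/
theorem result [FiniteDimensional ℝ V] (D : Transverse H V)
    (h₀ : ∃ l : Families H V, Crystallographic D l) :
    (∃ C : Set (Families H V), IsOpenConvexCone D C ∧ (∀ l ∈ C, -l ∉ C) ∧
      ∀ l, Crystallographic D l ↔ l ∈ C ∨ -l ∈ C) ∧
    ∀ l l', Crystallographic D l → Crystallographic D l' → ConjugateOverBase D l l' := by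
  obtain ⟨l₀, hl₀, hA, hC⟩ := h₀
  have hA' : PD (liftAct (isCocy hl₀)) := hA
  have hC' : CC (liftAct (isCocy hl₀)) := hC
  have hneg : ∀ l : Families H V, (fun (g : H) (z : V) => (-l) g z) =
      fun g z => -1 * l g z := by
    intro l
    funext g z
    change -(l g z) = -1 * l g z
    ring
  let C : Set (Families H V) := {l | IsCocycle D l ∧ PosTo (isCocy hl₀) (fun g z => l g z)}
  refine ⟨⟨C, ⟨?_, ?_⟩, ?_, ?_⟩, ?_⟩
  · -- openness
    have key : ∀ l ∈ C, ∃ O : Set (Families H V), IsOpen O ∧ l ∈ O ∧
        O ∩ {l | IsCocycle D l} ⊆ C := by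
      rintro l ⟨hlc, hl⟩
      obtain ⟨_, hAl, hCl⟩ := hl.crys hA' hC' (isCocy hlc)
      obtain ⟨S, Z, ε, hS, hZ, hε, hst⟩ := stab_unif (isCocy hlc) hAl hCl
      obtain ⟨r, hr⟩ := hZ.isBounded.exists_norm_le
      let M : ℝ := |r| + 1
      have hM : 0 < M := by positivity
      have hδ : 0 < ε / M := div_pos hε hM
      refine ⟨⋂ g ∈ S, {l' : Families H V | ‖l' g - l g‖ < ε / M}, ?_, ?_, ?_⟩
      · refine hS.isOpen_biInter (fun g _ => ?_)
        have hc : Continuous (fun l' : Families H V => ‖l' g - l g‖) :=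
          ((continuous_apply g).sub continuous_const).norm
        exact isOpen_lt hc continuous_const
      · refine Set.mem_iInter₂.mpr (fun g _ => ?_)
        change ‖l g - l g‖ < ε / M
        rw [sub_self, norm_zero]
        exact hδ
      · rintro l' ⟨hl', hlc'⟩
        have h3 : PosTo (isCocy hlc) (fun g z => l g z + (l' - l) g z) := by
          refine hst _ (isCocy (IsCocycle.sub hlc' hlc)) ?_
          intro g hg z hz
          have h4 : |(l' - l) g z| ≤ ‖(l' - l) g‖ * (‖z‖ + 1) := abs_apply_le _ z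
          have h5 : ‖(l' - l) g‖ ≤ ε / M := (Set.mem_iInter₂.mp hl' g hg).le
          have h6 : ‖z‖ + 1 ≤ M := by
            have := (hr z hz).trans (le_abs_self r)
            change ‖z‖ + 1 ≤ |r| + 1
            linarith
          calc |(l' - l) g z| ≤ ‖(l' - l) g‖ * (‖z‖ + 1) := h4
            _ ≤ (ε / M) * M := mul_le_mul h5 h6 (by positivity) hδ.le
            _ = ε := div_mul_cancel₀ _ hM.ne'
        have h7 : (fun (g : H) (z : V) => l g z + (l' - l) g z) = fun g z => l' g z := by
          funext g z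
          change l g z + (l' g z - l g z) = l' g z
          ring
        rw [h7] at h3
        exact ⟨hlc', PosTo.trans (hl := isCocy hlc) hl h3⟩
    choose! O hO hmem hsub using key
    refine ⟨⋃ l ∈ C, O l, isOpen_biUnion hO, Set.Subset.antisymm ?_ ?_⟩
    · exact fun l hl => ⟨Set.mem_iUnion₂.mpr ⟨l, hl, hmem l hl⟩, hl.1⟩
    · rintro l ⟨h1, h2⟩
      obtain ⟨k, hk, hl⟩ := Set.mem_iUnion₂.mp h1
      exact hsub k hk ⟨hl, h2⟩
  · rintro l ⟨hl, pl⟩ l' ⟨hl', pl'⟩ s t hs ht hst
    exact ⟨(hl.smul s).add (hl'.smul t), pl.comb pl' hs ht hst⟩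
  · rintro l ⟨hl, pl⟩ ⟨hl', pl'⟩
    have h2 := pl.comb pl' zero_le_one zero_le_one (by norm_num)
    have h3 : (fun (g : H) (z : V) => 1 * l g z + 1 * (-l) g z) = fun _ _ => 0 := by
      funext g z
      change 1 * l g z + 1 * -(l g z) = 0
      ring
    rw [h3] at h2
    refine not_crys_zero (α := tact D) (R := mult D) (h2.crys hA' hC' ?_)
    refine ⟨fun g => contDiff_const, fun g k z => ?_⟩
    change (0 : ℝ) = (D.a g : ℝ) * 0 + 0
    ring
  · intro l
    constructor
    · intro h
      rcases posTo_or hA' hC' ((crys_iff l).mp h) with h1 | h1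
      · exact Or.inl ⟨h.1, h1⟩
      · refine Or.inr ⟨h.1.neg, ?_⟩
        rw [hneg]
        exact h1
    · rintro (⟨h, h1⟩ | ⟨h, h1⟩)
      · exact (crys_iff l).mpr (h1.crys hA' hC' (isCocy h))
      · rw [crys_iff]
        have h2 := h1.crys hA' hC' (isCocy h)
        rw [hneg] at h2
        exact crys_neg h2
  · intro l l' hl hl'
    rcases posTo_or (h₀ := isCocy hl.1) hl.2.1 hl.2.2 ((crys_iff l').mp hl') with h | h
    · exact h.diffeo (isCocy hl'.1)
    · obtain ⟨U, hU1, hU2⟩ := h.diffeo ((isCocy hl'.1).smul (-1))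
      let W : Diffeomorph 𝓘(ℝ, V × ℝ) 𝓘(ℝ, V × ℝ) (V × ℝ) (V × ℝ) ∞ :=
        { toFun := fun x => (x.1, -x.2)
          invFun := fun x => (x.1, -x.2)
          left_inv := fun x => by simp
          right_inv := fun x => by simp
          contMDiff_toFun := contMDiff_iff_contDiff.mpr (contDiff_fst.prodMk contDiff_snd.neg)
          contMDiff_invFun := contMDiff_iff_contDiff.mpr (contDiff_fst.prodMk contDiff_snd.neg) }
      refine ⟨U.trans W, fun x => hU1 x, fun g x => ?_⟩
      have h1 : U (lift D l g x) =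
          (D.α g (U x).1, (D.a g : ℝ) * (U x).2 + -1 * l' g (U x).1) := hU2 g x
      change ((U (lift D l g x)).1, -(U (lift D l g x)).2) =
        (D.α g (U x).1, (D.a g : ℝ) * -(U x).2 + l' g (U x).1)
      rw [h1]
      refine Prod.ext rfl ?_
      change -((D.a g : ℝ) * (U x).2 + -1 * l' g (U x).1) =
        (D.a g : ℝ) * -(U x).2 + l' g (U x).1
      ring

end

end Pool.Agent.Results.MP_27f33f_gt.LineCone
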